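import Pool.Agent.H261R3.LN.Stmts

set_option autoImplicit false

/-! Project LN, task Stage2N: make a family constant on the vertical walls. -/

namespace Pool.Agent.H360R3.LN

open Pool.Agent.H261R3.LH (Lip1 clip clip_nonneg)
open Pool.Agent.H261R3.LN

lemma clip_of_mem {x : ℝ} (h0 : 0 ≤ x) (h1 : x ≤ 1) : clip x = x := by
  rw [clip, min_eq_right h1, max_eq_right h0]

lemma clip_le_one (x : ℝ) : clip x ≤ 1 := max_le zero_le_one (min_le_left _ _)

lemma clip_lip (x y : ℝ) : |clip x - clip y| ≤ |x - y| := by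
  unfold clip
  calc |max 0 (min 1 x) - max 0 (min 1 y)| ≤ |min 1 x - min 1 y| := by
        have := abs_max_sub_max_le_max 0 (min 1 x) 0 (min 1 y)
        simpa using this
    _ ≤ |x - y| := by
        have := abs_min_sub_min_le_max 1 x 1 y
        simpa using this

section
variable {S : Type} [MetricSpace S]

/-- gluing in one variable -/
lemma glue1 {D : ℝ} (φ : ℝ → S)
    (hφ : ∀ (n : ℤ) (a b : ℝ), (n : ℝ) ≤ a → a ≤ n + 1 → (n : ℝ) ≤ b → b ≤ n + 1 →
      dist (φ a) (φ b) ≤ D * |a - b|) : ∀ a b, dist (φ a) (φ b) ≤ D * |a - b| := by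
  have key : ∀ (N : ℕ) (a b : ℝ), a ≤ b → ⌊b⌋ - ⌊a⌋ = N → dist (φ a) (φ b) ≤ D * |a - b| := by
    intro N
    induction N with
    | zero =>
      intro a b hab h
      have h' : ⌊b⌋ = ⌊a⌋ := by push_cast at h; omega
      refine hφ ⌊a⌋ a b (Int.floor_le a) (Int.lt_floor_add_one a).le ?_ ?_
      · rw [← h']; exact Int.floor_le b
      · rw [← h']; exact (Int.lt_floor_add_one b).le
    | succ N ih =>
      intro a b hab h
      have h1 : ⌊a⌋ + 1 ≤ ⌊b⌋ := by push_cast at h; omega
      have h2 : ((⌊a⌋ + 1 : ℤ) : ℝ) ≤ b := (Int.cast_le.2 h1).trans (Int.floor_le b)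
      have h3 : a ≤ ((⌊a⌋ + 1 : ℤ) : ℝ) := by
        push_cast
        exact (Int.lt_floor_add_one a).le
      have h4 := hφ ⌊a⌋ a ((⌊a⌋ + 1 : ℤ) : ℝ) (Int.floor_le a) (Int.lt_floor_add_one a).le
        (by push_cast; linarith) (by push_cast; linarith)
      have h5 := ih ((⌊a⌋ + 1 : ℤ) : ℝ) b h2 (by rw [Int.floor_intCast]; push_cast at h; omega)
      rw [abs_of_nonpos (sub_nonpos.2 h3)] at h4
      rw [abs_of_nonpos (sub_nonpos.2 h2)] at h5
      rw [abs_of_nonpos (sub_nonpos.2 hab)]
      calc dist (φ a) (φ b) ≤ _ := dist_triangle _ (φ ((⌊a⌋ + 1 : ℤ) : ℝ)) _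
        _ ≤ _ := add_le_add h4 h5
        _ = D * -(a - b) := by ring
  have key2 : ∀ a b : ℝ, a ≤ b → dist (φ a) (φ b) ≤ D * |a - b| := by
    intro a b hab
    have h1 : 0 ≤ ⌊b⌋ - ⌊a⌋ := sub_nonneg.2 (Int.floor_le_floor hab)
    obtain ⟨N, hN⟩ := Int.eq_ofNat_of_zero_le h1
    exact key N a b hab hN
  intro a b
  rcases le_total a b with h | h
  · exact key2 a b h
  · rw [dist_comm, abs_sub_comm]
    exact key2 b a h

/-- Lipschitz in every coordinate -/
lemma lip_coord {m : ℕ} {D : ℝ} (hD : 0 ≤ D) (F : (Fin m → ℝ) → S)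
    (hF : ∀ v i a b, dist (F (Function.update v i a)) (F (Function.update v i b)) ≤ D * |a - b|) :
    LipN (m * D) F := by
  intro v v'
  have key : ∀ T : Finset (Fin m), dist (F v) (F (T.piecewise v' v)) ≤ ∑ _i ∈ T, D * dist v v' := by
    intro T
    induction T using Finset.induction_on with
    | empty => simp
    | insert a T ha ih =>
      rw [Finset.sum_insert ha, Finset.piecewise_insert]
      have h1 : T.piecewise v' v = Function.update (T.piecewise v' v) a (v a) := by
        rw [eq_comm, Function.update_eq_self_iff, Finset.piecewise_eq_of_notMem _ _ _ ha]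
      have h2 := hF (T.piecewise v' v) a (v a) (v' a)
      rw [← h1] at h2
      have h3 : |v a - v' a| ≤ dist v v' := by
        have := dist_le_pi_dist v v' a
        rwa [Real.dist_eq] at this
      calc dist (F v) (F (Function.update (T.piecewise v' v) a (v' a)))
          ≤ dist (F v) (F (T.piecewise v' v)) +
            dist (F (T.piecewise v' v)) (F (Function.update (T.piecewise v' v) a (v' a))) :=
            dist_triangle _ _ _
        _ ≤ (∑ _i ∈ T, D * dist v v') + D * |v a - v' a| := add_le_add ih h2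
        _ ≤ (∑ _i ∈ T, D * dist v v') + D * dist v v' := by
            gcongr
        _ = _ := by ring
  have h := key Finset.univ
  rw [Finset.piecewise_univ, Finset.sum_const, Finset.card_univ, Fintype.card_fin, nsmul_eq_mul]
    at h
  rw [mul_assoc]
  exact h

variable {m : ℕ} {C : ℝ} {G : ℤ → (Fin m → ℤ) → (Fin m → ℝ) → ℝ → S}

lemma glue_fin (hG : GoodN C G) (j : ℤ) (k : Fin m → ℤ) (s : Fin m → ℝ) (h : ℝ)
    (hs : InCube s) (T : Finset (Fin m)) (hT : ∀ i ∈ T, s i = 1) :
    G j (fun i => if i ∈ T then k i + 1 else k i) (fun i => if i ∈ T then 0 else s i) h =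
      G j k s h := by
  classical
  induction T using Finset.induction_on with
  | empty => simp
  | insert a T ha ih =>
    rw [← ih (fun i hi => hT i (Finset.mem_insert_of_mem hi))]
    have hc : InCube (fun i => if i ∈ T then 0 else s i) := by
      intro i
      by_cases hi : i ∈ T
      · simp [hi]
      · simpa [hi] using hs i
    rw [hG.lr j (fun i => if i ∈ T then k i + 1 else k i) (fun i => if i ∈ T then 0 else s i) h a hc
      (by simp [ha, hT a (Finset.mem_insert_self a T)])]
    congr 1
    · funext i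
      by_cases hi : i = a
      · subst hi; simp [ha]
      · simp [hi]
    · funext i
      by_cases hi : i = a
      · subst hi; simp
      · simp [hi]

/-- the slab function -/
noncomputable def slab (G : ℤ → (Fin m → ℤ) → (Fin m → ℝ) → ℝ → S) (j : ℤ) (v : Fin m → ℝ)
    (h : ℝ) : S :=
  G j (fun i => ⌊v i⌋) (fun i => Int.fract (v i)) h

lemma slab_eq (hG : GoodN C G) (j : ℤ) (k : Fin m → ℤ) (s : Fin m → ℝ) (h : ℝ)
    (hs : InCube s) (v : Fin m → ℝ) (hv : ∀ i, v i = k i + s i) : slab G j v h = G j k s h := by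
  classical
  rw [← glue_fin hG j k s h hs (Finset.univ.filter (fun i => s i = 1))
    (fun i hi => (Finset.mem_filter.1 hi).2)]
  unfold slab
  congr 1
  · funext i
    rw [hv]
    by_cases hi : s i = 1
    · simp [hi]
    · have h1 : s i < 1 := lt_of_le_of_ne (hs i).2 hi
      have h2 : ⌊s i⌋ = 0 := Int.floor_eq_zero_iff.2 ⟨(hs i).1, h1⟩
      simp [hi, h2]
  · funext i
    rw [hv]
    by_cases hi : s i = 1
    · simp [hi]
    · have h1 : s i < 1 := lt_of_le_of_ne (hs i).2 hi
      have h2 : Int.fract (s i) = s i := Int.fract_eq_self.2 ⟨(hs i).1, h1⟩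
      simp [hi, h2]

lemma slab_lip (hG : GoodN C G) {D : ℝ} (hCD : C ≤ D) (hD : 0 ≤ D) (j : ℤ) (h : ℝ) :
    LipN (m * D) (fun v => slab G j v h) := by
  refine lip_coord hD _ ?_
  intro v i a b
  refine glue1 (fun a => slab G j (Function.update v i a) h) ?_ a b
  intro n a b ha1 ha2 hb1 hb2
  have key : ∀ c : ℝ, (n : ℝ) ≤ c → c ≤ n + 1 → slab G j (Function.update v i c) h =
      G j (Function.update (fun i => ⌊v i⌋) i n)
        (Function.update (fun i => Int.fract (v i)) i (c - n)) h := by
    intro c hc1 hc2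
    refine slab_eq hG j _ _ h ?_ _ ?_
    · intro i'
      by_cases hi : i' = i
      · subst hi
        rw [Function.update_self]
        constructor <;> linarith
      · rw [Function.update_of_ne hi]
        exact ⟨Int.fract_nonneg _, (Int.fract_lt_one _).le⟩
    · intro i'
      by_cases hi : i' = i
      · subst hi
        rw [Function.update_self, Function.update_self, Function.update_self]
        ring
      · rw [Function.update_of_ne hi, Function.update_of_ne hi, Function.update_of_ne hi]
        exact (Int.floor_add_fract (v i')).symm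
  rw [key a ha1 ha2, key b hb1 hb2]
  refine (hG.ls j _ h _ _).trans ?_
  have h1 : dist (Function.update (fun i => Int.fract (v i)) i (a - n))
      (Function.update (fun i => Int.fract (v i)) i (b - n)) ≤ |a - b| := by
    refine (dist_pi_le_iff (abs_nonneg _)).2 (fun i' => ?_)
    by_cases hi : i' = i
    · subst hi
      rw [Function.update_self, Function.update_self, Real.dist_eq]
      exact le_of_eq (by congr 1; ring)
    · rw [Function.update_of_ne hi, Function.update_of_ne hi, dist_self]
      exact abs_nonneg _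
  exact (mul_le_mul_of_nonneg_right hCD dist_nonneg).trans (mul_le_mul_of_nonneg_left h1 hD)

end

theorem taskStage2N : TaskStage2N := by
  intro S _ p m hK C
  set D : ℝ := max C 0 with hDdef
  have hD : 0 ≤ D := le_max_right _ _
  have hCD : C ≤ D := le_max_left _ _
  set M : ℝ := m * D + D with hMdef
  have hmD : (0 : ℝ) ≤ m * D := by positivity
  have hM1 : (m : ℝ) * D ≤ M := by linarith
  have hM2 : D ≤ M := by linarith
  obtain ⟨C', hC', hW⟩ := hK M
  refine ⟨C', hC', ?_⟩
  intro G hG hp
  have c0 : clip 0 = 0 := clip_of_mem le_rfl zero_le_one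
  have c1 : clip 1 = 1 := clip_of_mem zero_le_one le_rfl
  have hex : ∀ j : ℤ, ∃ g : ℝ → (Fin m → ℝ) → (Fin 1 → ℝ) → S,
      Hmt C' p (fun v u => slab G j v (clip (u 0))) g ∧
        ∀ (x : Fin m → ℝ) (u : Fin 1 → ℝ) (i : Fin m) (k : ℤ), x i = k → g 1 x u = p := by
    intro j
    refine hW _ ?_ ?_ ?_
    · intro u x y
      exact (slab_lip hG hCD hD j (clip (u 0)) x y).trans
        (mul_le_mul_of_nonneg_right hM1 dist_nonneg)
    · intro x u u'
      refine (hG.lh j _ _ _ _).trans ?_
      have h1 : |clip (u 0) - clip (u' 0)| ≤ dist u u' := by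
        refine (clip_lip _ _).trans ?_
        have := dist_le_pi_dist u u' 0
        rwa [Real.dist_eq] at this
      exact (mul_le_mul_of_nonneg_right (hCD.trans hM2) (abs_nonneg _)).trans
        (mul_le_mul_of_nonneg_left h1 (hD.trans hM2))
    · intro x u hu
      obtain ⟨i, hi⟩ := hu
      have hi0 : i = 0 := Subsingleton.elim _ _
      subst hi0
      rcases hi with hi | hi
      · rw [hi, c0]; exact (hp j _ _).1
      · rw [hi, c1]; exact (hp j _ _).2
  choose g hg hg1 using hex
  let H : ℝ → ℤ → (Fin m → ℤ) → (Fin m → ℝ) → ℝ → S := fun t j k s h =>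
    g j (clip t) (fun i => (k i : ℝ) + clip (s i)) (fun _ => clip h)
  have hbd0 : ∀ t j k s, H t j k s 0 = p := by
    intro t j k s
    exact (hg j).bd _ _ _ ⟨0, Or.inl c0⟩
  have hbd1 : ∀ t j k s, H t j k s 1 = p := by
    intro t j k s
    exact (hg j).bd _ _ _ ⟨0, Or.inr c1⟩
  have hgood : ∀ t, GoodN C' (H t) := by
    intro t
    refine ⟨?_, ?_, ?_, ?_⟩
    · intro j k h s s'
      refine ((hg j).lx _ _ _ _).trans (mul_le_mul_of_nonneg_left ?_ hC')
      refine (dist_pi_le_iff dist_nonneg).2 (fun i => ?_)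
      rw [Real.dist_eq, add_sub_add_left_eq_sub]
      refine (clip_lip _ _).trans ?_
      have := dist_le_pi_dist s s' i
      rwa [Real.dist_eq] at this
    · intro j k s h h'
      refine ((hg j).lu _ _ _ _).trans (mul_le_mul_of_nonneg_left ?_ hC')
      refine (dist_pi_le_iff (abs_nonneg _)).2 (fun i => ?_)
      rw [Real.dist_eq]
      exact clip_lip _ _
    · intro j k s h i hs hi
      have : (fun i' => (k i' : ℝ) + clip (s i')) = fun i' =>
          ((Function.update k i (k i + 1) i' : ℤ) : ℝ) + clip (Function.update s i 0 i') := by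
        funext i'
        by_cases h' : i' = i
        · subst h'
          rw [Function.update_self, Function.update_self, hi, c1, c0]
          push_cast
          ring
        · rw [Function.update_of_ne h', Function.update_of_ne h']
      show g j (clip t) (fun i' => (k i' : ℝ) + clip (s i')) (fun _ => clip h) = _
      rw [this]
    · intro j k b hb s hs
      rw [hbd0, hbd1]
  refine ⟨H 1, ⟨H, hgood, ?_, ?_, fun _ _ _ _ _ _ _ => rfl⟩, hgood 1,
    fun j k s => ⟨hbd0 1 j k s, hbd1 1 j k s⟩, ?_⟩
  · intro j k s h t t'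
    refine ((hg j).lt _ _ _ _).trans (mul_le_mul_of_nonneg_left (clip_lip _ _) hC')
  · intro j k s h hs h0 h1
    show g j (clip 0) (fun i => (k i : ℝ) + clip (s i)) (fun _ => clip h) = G j k s h
    rw [c0, clip_of_mem h0 h1, (hg j).start _ _ (fun _ => ⟨h0, h1⟩)]
    dsimp only
    rw [clip_of_mem h0 h1]
    refine slab_eq hG j k s h hs _ (fun i => ?_)
    rw [clip_of_mem (hs i).1 (hs i).2]
  · intro j k s h hs
    obtain ⟨i, hi⟩ := hs
    show g j (clip 1) (fun i => (k i : ℝ) + clip (s i)) (fun _ => clip h) = p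
    rw [c1]
    rcases hi with hi | hi
    · refine hg1 j _ _ i (k i) ?_
      rw [hi, c0, add_zero]
    · refine hg1 j _ _ i (k i + 1) ?_
      rw [hi, c1]
      push_cast
      ring

end Pool.Agent.H360R3.LN
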